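import Pool.Agent.Helper1_NP9.Stmts

/-!
Squad NP9, module CB: the relation combining theorem for three squares and one positivity.
-/

set_option autoImplicit false

namespace Pool.Agent.NP9.H43

open Pool.Agent.NP9

theorem cPr_prod {R : Type} [CommRing R] (u A B C : R) :
    cPr u (A ^ 2) (B ^ 2) (C ^ 2) =
      ((u - A - B - C) * (u - A - B + C) * ((u - A + B - C) * (u - A + B + C)))
      * ((u + A - B - C) * (u + A - B + C) * ((u + A + B - C) * (u + A + B + C))) := by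
  unfold cPr cEv cOd; ring

/-- the rational numbers inside the real numbers -/
noncomputable def QQ : Subfield ℝ := (algebraMap ℚ ℝ).fieldRange

theorem int_mem (z : ℤ) : (z : ℝ) ∈ QQ := intCast_mem QQ z

theorem isq {z : ℤ} {x : ℝ} (hx : x ∈ QQ) (h : x ^ 2 = (z : ℝ)) : IsSquare z := by
  obtain ⟨q, hq⟩ := hx
  have hq' : ((q : ℚ) : ℝ) = x := by
    rw [← hq]; simp
  have h1 : q ^ 2 = (z : ℚ) := by
    have : ((q ^ 2 : ℚ) : ℝ) = ((z : ℚ) : ℝ) := by
      push_cast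
      rw [hq', h]
    exact_mod_cast this
  have h2 : IsSquare ((z : ℚ)) := ⟨q, by rw [← h1]; ring⟩
  exact Rat.isSquare_intCast_iff.1 h2

/-- The heart: three square roots whose sum is rational are rational. -/
theorem core {a b c X : ℤ} (ha : 1 ≤ a) (hb : 1 ≤ b) (hc : 1 ≤ c) (hX : X = 1 + a + b + c)
    {A B C : ℝ} (hA : A ^ 2 = (a : ℝ)) (hB : B ^ 2 = (X : ℝ) ^ 2 * b)
    (hC : C ^ 2 = (X : ℝ) ^ 4 * c) :
    |A + B + C| < (X : ℝ) ^ 3 ∧ (A + B + C ∈ QQ → A ∈ QQ ∧ B ∈ QQ ∧ C ∈ QQ) := by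
  have ha' : (1 : ℝ) ≤ a := by exact_mod_cast ha
  have hb' : (1 : ℝ) ≤ b := by exact_mod_cast hb
  have hc' : (1 : ℝ) ≤ c := by exact_mod_cast hc
  have hX' : (X : ℝ) = 1 + a + b + c := by rw [hX]; push_cast; ring
  have hxm : (X : ℝ) ∈ QQ := int_mem X
  set x : ℝ := (X : ℝ) with hx
  have x4 : 4 ≤ x := by linarith
  have x0 : 0 < x := by linarith
  -- sizes
  have sz : ∀ {s t : ℝ}, 0 ≤ t → s ^ 2 ≤ t ^ 2 → |s| ≤ t := by
    intro s t ht h
    exact abs_le_of_sq_le_sq h ht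
  have sz' : ∀ {s t : ℝ}, 0 ≤ t → t ^ 2 ≤ s ^ 2 → t ≤ |s| := by
    intro s t ht h
    rw [← abs_of_nonneg ht]
    exact sq_le_sq.1 h
  have A1 : |A| ≤ a := sz (by linarith) (by rw [hA]; nlinarith)
  have B1 : |B| ≤ x * b := sz (by positivity) (by
    rw [hB, mul_pow]
    exact mul_le_mul_of_nonneg_left (by nlinarith) (by positivity))
  have C1 : |C| ≤ x ^ 2 * c := sz (by positivity) (by
    rw [hC, mul_pow]
    have : x ^ 4 = (x ^ 2) ^ 2 := by ring
    rw [this]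
    exact mul_le_mul_of_nonneg_left (by nlinarith) (by positivity))
  have B2 : x ≤ |B| := sz' x0.le (by
    rw [hB]
    nlinarith [mul_nonneg (sq_nonneg x) (sub_nonneg.2 hb')])
  have C2 : x ^ 2 ≤ |C| := sz' (by positivity) (by
    rw [hC]
    nlinarith [mul_nonneg (pow_nonneg x0.le 4) (sub_nonneg.2 hc')])
  have xa : (a : ℝ) ≤ x * a := by nlinarith
  have hlow : (a : ℝ) + x * b < x ^ 2 := by
    have : x ^ 2 = x * 1 + x * a + x * b + x * c := by
      rw [sq]; nth_rewrite 2 [hX']; ring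
    have h2 : 0 < x * c := by positivity
    linarith
  have habs : |A + B + C| < x ^ 3 := by
    have h1 : |A + B + C| ≤ |A| + |B| + |C| := abs_add_three A B C
    have h2 : (a : ℝ) + x * b + x ^ 2 * c < x ^ 3 := by
      have e : x ^ 3 = x ^ 2 * 1 + x ^ 2 * a + x ^ 2 * b + x ^ 2 * c := by
        have : x ^ 3 = x ^ 2 * x := by ring
        rw [this]; nth_rewrite 2 [hX']; ring
      have h3 : (a : ℝ) ≤ x ^ 2 * a := by nlinarith
      have h4 : x * b ≤ x ^ 2 * b := by nlinarith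
      have h5 : 0 < x ^ 2 := by positivity
      linarith
    linarith
  refine ⟨habs, fun hq => ?_⟩
  -- C is rational
  have mA2 : A ^ 2 ∈ QQ := by rw [hA]; exact int_mem a
  have mB2 : B ^ 2 ∈ QQ := by rw [hB]; exact mul_mem (pow_mem hxm 2) (int_mem b)
  have mC2 : C ^ 2 ∈ QQ := by rw [hC]; exact mul_mem (pow_mem hxm 4) (int_mem c)
  have AB : |A + B| < x ^ 2 := by
    have h1 : |A + B| ≤ |A| + |B| := abs_add_le A B
    linarith
  have q0 : A + B + C ≠ 0 := by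
    intro h
    have h1 : C = -(A + B) := by linarith
    rw [h1, abs_neg] at C2
    linarith
  have s0 : 0 < (A + B + C) ^ 2 + C ^ 2 - A ^ 2 - B ^ 2 := by
    have h1 : 0 ≤ (A + B + C) ^ 2 := sq_nonneg _
    have h2 : A ^ 2 + B ^ 2 < C ^ 2 := by
      rw [hA, hB, hC]
      have h3 : x ^ 4 ≤ x ^ 4 * c := by
        have : 0 < x ^ 4 := by positivity
        nlinarith
      have h4 : (a : ℝ) + x ^ 2 * b < x ^ 4 := by
        have h5 : x ^ 2 * ((a : ℝ) + x * b) < x ^ 2 * x ^ 2 :=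
          mul_lt_mul_of_pos_left hlow (by positivity)
        have h6 : (a : ℝ) ≤ x ^ 2 * a := by nlinarith
        have h7 : x ^ 2 * b ≤ x ^ 2 * (x * b) := by
          apply mul_le_mul_of_nonneg_left _ (by positivity)
          nlinarith
        have h8 : x ^ 2 * x ^ 2 = x ^ 4 := by ring
        rw [h8, mul_add] at h5
        linarith
      linarith
    linarith
  have mS : (A + B + C) ^ 2 + C ^ 2 - A ^ 2 - B ^ 2 ∈ QQ :=
    sub_mem (sub_mem (add_mem (pow_mem hq 2) mC2) mA2) mB2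
  have mC : C ∈ QQ := by
    have h1 : C = (((A + B + C) ^ 2 + C ^ 2 - A ^ 2 - B ^ 2) ^ 2 + 4 * (A + B + C) ^ 2 * C ^ 2
        - 4 * A ^ 2 * B ^ 2) / (4 * ((A + B + C) ^ 2 + C ^ 2 - A ^ 2 - B ^ 2) * (A + B + C)) := by
      rw [eq_div_iff (mul_ne_zero (mul_ne_zero (by norm_num) s0.ne') q0)]
      ring
    rw [h1]
    have m4 : (4 : ℝ) ∈ QQ := by exact_mod_cast int_mem 4
    exact div_mem (sub_mem (add_mem (pow_mem mS 2) (mul_mem (mul_mem m4 (pow_mem hq 2)) mC2))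
      (mul_mem (mul_mem m4 mA2) mB2)) (mul_mem (mul_mem m4 mS) hq)
  have mAB : A + B ∈ QQ := by
    have : A + B = (A + B + C) - C := by ring
    rw [this]; exact sub_mem hq mC
  have ab0 : A + B ≠ 0 := by
    intro h
    have h1 : B = -A := by linarith
    rw [h1, abs_neg] at B2
    linarith
  have mA : A ∈ QQ := by
    have h1 : A = ((A + B) ^ 2 + A ^ 2 - B ^ 2) / (2 * (A + B)) := by
      rw [eq_div_iff (mul_ne_zero (by norm_num) ab0)]
      ring
    rw [h1]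
    have m2 : (2 : ℝ) ∈ QQ := by exact_mod_cast int_mem 2
    exact div_mem (sub_mem (add_mem (pow_mem mAB 2) mA2) mB2) (mul_mem m2 mAB)
  have mB : B ∈ QQ := by
    have : B = (A + B) - A := by ring
    rw [this]; exact sub_mem mAB mA
  exact ⟨mA, mB, mC⟩

/-- One vanishing factor gives everything. -/
theorem fac {a b c r : ℤ} {w : ℕ} (ha : 1 ≤ a) (hb : 1 ≤ b) (hc : 1 ≤ c)
    {s1 s2 s3 : ℝ} (h1 : s1 ^ 2 = a) (h2 : s2 ^ 2 = b) (h3 : s3 ^ 2 = c)
    (h : (w : ℝ) - (2 * (r : ℝ) - 1) * (1 + a + b + c : ℝ) ^ 3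
      + (2 * (r : ℝ) - 1) * s1 + (2 * (r : ℝ) - 1) * ((1 + a + b + c : ℝ) * s2)
      + (2 * (r : ℝ) - 1) * ((1 + a + b + c : ℝ) ^ 2 * s3) = 0) :
    IsSquare a ∧ IsSquare b ∧ IsSquare c ∧ 0 < r := by
  have ha' : (1 : ℝ) ≤ a := by exact_mod_cast ha
  have hb' : (1 : ℝ) ≤ b := by exact_mod_cast hb
  have hc' : (1 : ℝ) ≤ c := by exact_mod_cast hc
  obtain ⟨X, hX⟩ : ∃ X : ℤ, X = 1 + a + b + c := ⟨_, rfl⟩
  have hX' : (X : ℝ) = 1 + a + b + c := by rw [hX]; push_cast; ring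
  rw [← hX'] at h
  have x0 : (0 : ℝ) < X := by rw [hX']; linarith
  have W0 : (2 * (r : ℝ) - 1) ≠ 0 := by
    intro h0
    have h4 : (2 * r - 1 : ℤ) = 0 := by exact_mod_cast h0
    omega
  obtain ⟨k1, k2⟩ := core ha hb hc hX (A := s1) (B := X * s2) (C := (X : ℝ) ^ 2 * s3) h1
    (by rw [mul_pow, h2]) (by rw [mul_pow, h3]; ring)
  have hq : s1 + X * s2 + (X : ℝ) ^ 2 * s3
      = X ^ 3 - (w : ℝ) / (2 * (r : ℝ) - 1) := by
    field_simp
    linarith
  have mW : (2 * (r : ℝ) - 1) ∈ QQ := by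
    have : (2 * (r : ℝ) - 1) = ((2 * r - 1 : ℤ) : ℝ) := by push_cast; ring
    rw [this]; exact int_mem _
  have mq : s1 + X * s2 + (X : ℝ) ^ 2 * s3 ∈ QQ := by
    rw [hq]
    exact sub_mem (pow_mem (int_mem X) 3) (div_mem (by exact_mod_cast int_mem w) mW)
  obtain ⟨m1, m2, m3⟩ := k2 mq
  refine ⟨isq m1 h1, ?_, ?_, ?_⟩
  · have : s2 = (X * s2) / X := by field_simp
    refine isq (x := s2) ?_ h2
    rw [this]
    exact div_mem m2 (int_mem X)
  · have : s3 = ((X : ℝ) ^ 2 * s3) / (X : ℝ) ^ 2 := by field_simp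
    refine isq (x := s3) ?_ h3
    rw [this]
    exact div_mem m3 (pow_mem (int_mem X) 2)
  · have k3 := (abs_lt.1 k1).1
    have k4 := (abs_lt.1 k1).2
    by_contra hr
    have hr' : (r : ℝ) ≤ 0 := by exact_mod_cast not_lt.1 hr
    have hw : (0 : ℝ) ≤ w := Nat.cast_nonneg w
    have h5 : (w : ℝ) = (2 * (r : ℝ) - 1) * ((X : ℝ) ^ 3 - (s1 + X * s2 + (X : ℝ) ^ 2 * s3)) := by
      linarith
    have h6 : (2 * (r : ℝ) - 1) * ((X : ℝ) ^ 3 - (s1 + X * s2 + (X : ℝ) ^ 2 * s3)) < 0 :=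
      mul_neg_of_neg_of_pos (by linarith) (by linarith)
    linarith

theorem cb : CombStmt := by
  intro a b c r ha hb hc
  constructor
  · rintro ⟨w, hw⟩
    have ha' : (0 : ℝ) ≤ a := by exact_mod_cast (by omega : (0 : ℤ) ≤ a)
    have hb' : (0 : ℝ) ≤ b := by exact_mod_cast (by omega : (0 : ℤ) ≤ b)
    have hc' : (0 : ℝ) ≤ c := by exact_mod_cast (by omega : (0 : ℤ) ≤ c)
    have e1 : (√(a : ℝ)) ^ 2 = a := Real.sq_sqrt ha'
    have e2 : (√(b : ℝ)) ^ 2 = b := Real.sq_sqrt hb'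
    have e3 : (√(c : ℝ)) ^ 2 = c := Real.sq_sqrt hc'
    have hw' : comb (a : ℝ) b c r w = 0 := by
      have : ((comb a b c r (w : ℤ) : ℤ) : ℝ) = 0 := by rw [hw]; simp
      simpa [comb, cPr, cEv, cOd, cU, cA, cB, cC, cX, cW] using this
    set S1 : ℝ := √(a : ℝ)
    set S2 : ℝ := √(b : ℝ)
    set S3 : ℝ := √(c : ℝ)
    have hp := cPr_prod ((w : ℝ) - (2 * (r : ℝ) - 1) * (1 + a + b + c : ℝ) ^ 3)
      ((2 * (r : ℝ) - 1) * S1) ((2 * (r : ℝ) - 1) * ((1 + a + b + c : ℝ) * S2))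
      ((2 * (r : ℝ) - 1) * ((1 + a + b + c : ℝ) ^ 2 * S3))
    have hl : cPr ((w : ℝ) - (2 * (r : ℝ) - 1) * (1 + a + b + c : ℝ) ^ 3)
      (((2 * (r : ℝ) - 1) * S1) ^ 2) (((2 * (r : ℝ) - 1) * ((1 + a + b + c : ℝ) * S2)) ^ 2)
      (((2 * (r : ℝ) - 1) * ((1 + a + b + c : ℝ) ^ 2 * S3)) ^ 2) = 0 := by
      rw [← hw']
      unfold comb cU cA cB cC cW cX
      congr 1
      · rw [mul_pow, e1]
      · rw [mul_pow, mul_pow, e2]; ring
      · rw [mul_pow, mul_pow, e3]; ring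
    rw [hl] at hp
    have n1 : (-S1) ^ 2 = (a : ℝ) := by rw [neg_sq, e1]
    have n2 : (-S2) ^ 2 = (b : ℝ) := by rw [neg_sq, e2]
    have n3 : (-S3) ^ 2 = (c : ℝ) := by rw [neg_sq, e3]
    rcases mul_eq_zero.1 hp.symm with h | h
    · rcases mul_eq_zero.1 h with h | h
      · rcases mul_eq_zero.1 h with h | h
        · exact fac (w := w) ha hb hc n1 n2 n3 (by rw [← h]; ring)
        · exact fac (w := w) ha hb hc n1 n2 e3 (by rw [← h]; ring)
      · rcases mul_eq_zero.1 h with h | h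
        · exact fac (w := w) ha hb hc n1 e2 n3 (by rw [← h]; ring)
        · exact fac (w := w) ha hb hc n1 e2 e3 (by rw [← h]; ring)
    · rcases mul_eq_zero.1 h with h | h
      · rcases mul_eq_zero.1 h with h | h
        · exact fac (w := w) ha hb hc e1 n2 n3 (by rw [← h]; ring)
        · exact fac (w := w) ha hb hc e1 n2 e3 (by rw [← h]; ring)
      · rcases mul_eq_zero.1 h with h | h
        · exact fac (w := w) ha hb hc e1 e2 n3 (by rw [← h]; ring)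
        · exact fac (w := w) ha hb hc e1 e2 e3 (by rw [← h])
  · rintro ⟨⟨s1, h1⟩, ⟨s2, h2⟩, ⟨s3, h3⟩, hr⟩
    have hX : 0 ≤ 1 + a + b + c := by omega
    have hW : 0 ≤ 2 * r - 1 := by omega
    have g0 : 0 ≤ (2 * r - 1) * ((1 + a + b + c) ^ 3 + |s1| + (1 + a + b + c) * |s2|
        + (1 + a + b + c) ^ 2 * |s3|) := by positivity
    refine ⟨((2 * r - 1) * ((1 + a + b + c) ^ 3 + |s1| + (1 + a + b + c) * |s2|
        + (1 + a + b + c) ^ 2 * |s3|)).toNat, ?_⟩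
    rw [Int.toNat_of_nonneg g0]
    have q1 : a = |s1| ^ 2 := by rw [sq_abs, h1]; ring
    have q2 : b = |s2| ^ 2 := by rw [sq_abs, h2]; ring
    have q3 : c = |s3| ^ 2 := by rw [sq_abs, h3]; ring
    have hp := cPr_prod ((2 * r - 1) * ((1 + a + b + c) ^ 3 + |s1| + (1 + a + b + c) * |s2|
        + (1 + a + b + c) ^ 2 * |s3|) - (2 * r - 1) * (1 + a + b + c) ^ 3)
      ((2 * r - 1) * |s1|) ((2 * r - 1) * ((1 + a + b + c) * |s2|))
      ((2 * r - 1) * ((1 + a + b + c) ^ 2 * |s3|))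
    have hz : (2 * r - 1) * ((1 + a + b + c) ^ 3 + |s1| + (1 + a + b + c) * |s2|
        + (1 + a + b + c) ^ 2 * |s3|) - (2 * r - 1) * (1 + a + b + c) ^ 3
        - (2 * r - 1) * |s1| - (2 * r - 1) * ((1 + a + b + c) * |s2|)
        - (2 * r - 1) * ((1 + a + b + c) ^ 2 * |s3|) = 0 := by ring
    rw [hz, zero_mul, zero_mul, zero_mul] at hp
    rw [← hp]
    unfold comb cU cA cB cC cW cX
    have f1 : ((2 * r - 1) * |s1|) ^ 2 = (2 * r - 1) ^ 2 * a := by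
      rw [mul_pow, ← q1]
    have f2 : ((2 * r - 1) * ((1 + a + b + c) * |s2|)) ^ 2
        = (2 * r - 1) ^ 2 * (1 + a + b + c) ^ 2 * b := by
      rw [mul_pow, mul_pow, ← q2]; ring
    have f3 : ((2 * r - 1) * ((1 + a + b + c) ^ 2 * |s3|)) ^ 2
        = (2 * r - 1) ^ 2 * (1 + a + b + c) ^ 4 * c := by
      rw [mul_pow, mul_pow, ← q3]; ring
    rw [f1, f2, f3]

end Pool.Agent.NP9.H43
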